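import Pool.Agent.Q259.AF.Star

set_option autoImplicit false

namespace Pool.Agent.Q259.AF

open Finset
open scoped SimpleGraph

theorem sum_lower (a : ℕ) (A : Finset ℕ) :
    (∀ x ∈ A, a ≤ x) → A.card * (2 * a + A.card) ≤ 2 * (∑ x ∈ A, x) + A.card := by
  induction A using Finset.induction_on_max with
  | empty => intro; simp
  | insert b s hb ih =>
    intro h
    have h1 := ih fun x hx => h x (Finset.mem_insert_of_mem hx)
    have hn : b ∉ s := fun hbs => lt_irrefl _ (hb b hbs)
    rw [Finset.card_insert_of_notMem hn, Finset.sum_insert hn]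
    have h2 : s ⊆ Finset.Ico a b := fun x hx => by
      rw [Finset.mem_Ico]
      exact ⟨h x (Finset.mem_insert_of_mem hx), hb x hx⟩
    have h3 := Finset.card_le_card h2
    rw [Nat.card_Ico] at h3
    have h4 : a ≤ b := h b (Finset.mem_insert_self _ _)
    have h5 : a + s.card ≤ b := by omega
    nlinarith

open Classical in
/-- sum of the labels at a centre -/
noncomputable def cs {L C : Type} [Fintype L] (c : L → C) (g : L → ℕ) (k : C) : ℕ :=
  ∑ l : L, if c l = k then g l else 0

theorem sum_cs {L C : Type} [Fintype L] [Fintype C] (c : L → C) (g : L → ℕ) :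
    ∑ k, cs c g k = ∑ l, g l := by
  classical
  unfold cs
  rw [Finset.sum_comm]
  refine Finset.sum_congr rfl fun l _ => ?_
  rw [Finset.sum_ite_eq, if_pos (Finset.mem_univ _)]

theorem Good.sum_eq {L C : Type} [Fintype L] {c : L → C} {g : L → ℕ} (h : Good c g) :
    2 * ∑ l, g l = Fintype.card L * (Fintype.card L + 1) := by
  classical
  have h1 : ∑ l, g l = ∑ x ∈ Finset.Icc 1 (Fintype.card L), x := by
    refine Finset.sum_bij (fun l _ => g l) ?_ ?_ ?_ ?_
    · intro l _
      have := h.1.mapsTo (Set.mem_univ l)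
      rw [Finset.mem_Icc]
      exact this
    · intro l _ l' _ hl
      exact h.1.injOn (Set.mem_univ l) (Set.mem_univ l') hl
    · intro b hb
      rw [Finset.mem_Icc] at hb
      obtain ⟨l, -, hl⟩ := h.1.surjOn hb
      exact ⟨l, Finset.mem_univ _, hl⟩
    · intro _ _
      rfl
  rw [h1]
  have h2 : ∀ n : ℕ, 2 * ∑ x ∈ Finset.Icc 1 n, x = n * (n + 1) := by
    intro n
    induction n with
    | zero => simp
    | succ n ih =>
      rw [Finset.sum_Icc_succ_top (by omega), mul_add, ih]
      ring
  exact h2 _

theorem Good.pos {L C : Type} [Fintype L] {c : L → C} {g : L → ℕ} (h : Good c g) (l : L) :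
    1 ≤ g l := (h.1.mapsTo (Set.mem_univ l)).1

theorem Good.cs_pos {L C : Type} [Fintype L] {c : L → C} {g : L → ℕ} (h : Good c g) (l : L) :
    1 ≤ cs c g (c l) := by
  classical
  have h1 : (if c l = c l then g l else 0) ≤ cs c g (c l) := by
    unfold cs
    exact Finset.single_le_sum (f := fun l' => if c l' = c l then g l' else 0)
      (fun _ _ => Nat.zero_le _) (Finset.mem_univ l)
  rw [if_pos rfl] at h1
  exact (h.pos l).trans h1

theorem Good.cs_gt {L C : Type} [Fintype L] {c : L → C} {g : L → ℕ} (h : Good c g) (l : L) :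
    Fintype.card L + 1 ≤ cs c g (c l) := by
  by_contra hc
  have h1 := h.cs_pos l
  obtain ⟨l', -, hl'⟩ := h.1.surjOn (show cs c g (c l) ∈ Set.Icc 1 (Fintype.card L) from
    ⟨h1, by omega⟩)
  have h2 := h.2 (a₁ := Sum.inl l') (a₂ := Sum.inr (c l)) hl'
  exact Sum.inl_ne_inr h2

theorem Good.cs_inj {L C : Type} [Fintype L] {c : L → C} {g : L → ℕ} (h : Good c g) :
    Function.Injective (cs c g) := by
  intro k k' hk
  have h2 := h.2 (a₁ := Sum.inr k) (a₂ := Sum.inr k') hk
  exact Sum.inr_injective h2

/-- every centre has a leaf: bound by the total -/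
theorem Good.total {L C : Type} [Fintype L] [Fintype C] {c : L → C} {g : L → ℕ} (h : Good c g)
    (hc : Function.Surjective c) :
    Fintype.card C * (2 * (Fintype.card L + 1) + Fintype.card C) ≤
      Fintype.card L * (Fintype.card L + 1) + Fintype.card C := by
  classical
  have h1 := sum_lower (Fintype.card L + 1) (Finset.univ.image (cs c g)) (by
    intro x hx
    rw [Finset.mem_image] at hx
    obtain ⟨k, -, rfl⟩ := hx
    obtain ⟨l, rfl⟩ := hc k
    exact h.cs_gt l)
  rw [Finset.card_image_of_injective _ h.cs_inj, Finset.card_univ,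
    Finset.sum_image fun k _ k' _ hk => h.cs_inj hk, sum_cs, h.sum_eq] at h1
  exact h1

/-- bound by the labels of the paths -/
theorem Good.pairs {L C : Type} [Fintype L] [Fintype C] {c : L → C} {t : ℕ}
    {g : L ⊕ (Fin t × Bool) → ℕ}
    (h : Good (Sum.map c (Prod.fst : Fin t × Bool → Fin t)) g) :
    t ≤ 2 * Fintype.card L + 1 := by
  classical
  set c' : L ⊕ (Fin t × Bool) → C ⊕ Fin t := Sum.map c Prod.fst with hc'
  have hm : Fintype.card (L ⊕ (Fin t × Bool)) = Fintype.card L + 2 * t := by
    rw [Fintype.card_sum, Fintype.card_prod, Fintype.card_fin, Fintype.card_bool, mul_comm]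
  have hinj : Function.Injective fun i : Fin t => cs c' g (.inr i) := fun i j hij =>
    Sum.inr_injective (h.cs_inj hij)
  have hgt : ∀ i : Fin t, Fintype.card L + 2 * t + 1 ≤ cs c' g (.inr i) := by
    intro i
    have := h.cs_gt (.inr (i, false))
    rw [hm] at this
    exact this
  have h1 := sum_lower (Fintype.card L + 2 * t + 1)
    (Finset.univ.image fun i : Fin t => cs c' g (.inr i)) (by
    intro x hx
    rw [Finset.mem_image] at hx
    obtain ⟨k, -, rfl⟩ := hx
    exact hgt k)
  rw [Finset.card_image_of_injective _ hinj, Finset.card_univ, Fintype.card_fin,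
    Finset.sum_image fun k _ k' _ hk => hinj hk] at h1
  have hinj2 : Function.Injective fun l : L => g (.inl l) := fun l l' hl =>
    Sum.inl_injective (h.1.injOn (Set.mem_univ _) (Set.mem_univ _) hl)
  have h2 := sum_lower 1 (Finset.univ.image fun l : L => g (.inl l)) (by
    intro x hx
    rw [Finset.mem_image] at hx
    obtain ⟨k, -, rfl⟩ := hx
    exact h.pos _)
  rw [Finset.card_image_of_injective _ hinj2, Finset.card_univ,
    Finset.sum_image fun k _ k' _ hk => hinj2 hk] at h2
  have h3 := h.sum_eq
  rw [hm, Fintype.sum_sum_type] at h3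
  have h4 : ∑ i : Fin t, cs c' g (.inr i) = ∑ x : Fin t × Bool, g (.inr x) := by
    unfold cs
    rw [Finset.sum_comm, Fintype.sum_sum_type]
    refine (congrArg₂ (· + ·) (Finset.sum_eq_zero fun l _ => Finset.sum_eq_zero fun i _ =>
      if_neg ?_) (Finset.sum_congr rfl fun x _ => ?_)).trans (zero_add _)
    · rw [hc']
      simp
    · rw [Finset.sum_eq_single x.1]
      · exact if_pos rfl
      · intro i _ hi
        refine if_neg fun h' => hi ?_
        exact (Sum.inr_injective h').symm
      · intro h'
        exact absurd (Finset.mem_univ _) h'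
  rw [h4] at h1
  by_contra hlt
  have hlt' : 2 * Fintype.card L + 2 ≤ t := by omega
  set s := Fintype.card L
  nlinarith

end Pool.Agent.Q259.AF
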