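import Mathlib

set_option autoImplicit false

namespace Pool.Agent.Q259.AF

open Finset

/-- `f` restricted to the edge set of `G` is a bijection onto `{1, ..., m}`, `m` the number of
edges. -/
def IsLabelling {V : Type} (G : SimpleGraph V) (f : Sym2 V → ℕ) : Prop :=
  Set.BijOn f G.edgeSet (Set.Icc 1 G.edgeSet.ncard)

open Classical in
/-- The sum of the labels of the edges incident with `v`. -/
noncomputable def phi {V : Type} [Fintype V] (G : SimpleGraph V) (f : Sym2 V → ℕ) (v : V) : ℕ :=
  ∑ w : V, if G.Adj v w then f s(v, w) else 0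

/-- `G` has an antimagic labelling. -/
def Antimagic {V : Type} [Fintype V] (G : SimpleGraph V) : Prop :=
  ∃ f : Sym2 V → ℕ, IsLabelling G f ∧ Function.Injective (phi G f)

/-- The disjoint union of `t` copies of the path with three vertices. -/
def tP3 (t : ℕ) : SimpleGraph (Fin t × Fin 3) where
  Adj x y := x.1 = y.1 ∧ (SimpleGraph.pathGraph 3).Adj x.2 y.2
  symm := ⟨fun _ _ h => ⟨h.1.symm, h.2.symm⟩⟩
  loopless := ⟨fun _ h => (SimpleGraph.pathGraph 3).loopless.irrefl _ h.2⟩

open scoped SimpleGraph in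
/-- `n` is the parameter `τ(G)` of the antimagic graph `G`: the largest `t` such that
`G ∪ t' P₃` is antimagic for all `t' ≤ t`. -/
def IsTau {V : Type} [Fintype V] (G : SimpleGraph V) (n : ℕ) : Prop :=
  Antimagic G ∧ IsGreatest {t : ℕ | ∀ t' ≤ t, Antimagic (G ⊕g tP3 t')} n

end Pool.Agent.Q259.AF
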