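import Pool.Agent.Q259.AF.Tab

set_option autoImplicit false

namespace Pool.Agent.Q259.AF

open Finset
open scoped SimpleGraph

/-- the centres of the leaves in `K_{1,18} ∪ K_{1,6} ∪ t P₃` -/
abbrev cc (t : ℕ) : (Fin 18 ⊕ Fin 6) ⊕ (Fin t × Bool) → (Unit ⊕ Unit) ⊕ Fin t :=
  Sum.map (Sum.map (fun _ => ()) (fun _ => ())) Prod.fst

/-- the labelling -/
def gg (L : List (ℕ × ℕ)) : (Fin 18 ⊕ Fin 6) ⊕ (Fin L.length × Bool) → ℕ
  | .inl (.inl i) => i.val + 1
  | .inl (.inr i) => i.val + 19
  | .inr (i, false) => (L.get i).1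
  | .inr (i, true) => (L.get i).2

theorem cs_0 (L : List (ℕ × ℕ)) : cs (cc L.length) (gg L) (.inl (.inl ())) = 171 := by
  classical
  have h : ∀ x, (if cc L.length x = .inl (.inl ()) then gg L x else 0) =
      match x with
      | .inl (.inl i) => i.val + 1
      | _ => 0 := by
    rintro ((i | i) | ⟨i, b⟩)
    · exact if_pos rfl
    · exact if_neg (by simp)
    · exact if_neg (by simp)
  unfold cs
  have h2 : ∑ x : (Fin 18 ⊕ Fin 6) ⊕ (Fin L.length × Bool), (match x with
      | .inl (.inl i) => i.val + 1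
      | _ => 0) = 171 := by
    rw [Fintype.sum_sum_type, Fintype.sum_sum_type]
    simp only [Finset.sum_const_zero, add_zero]
    rfl
  rw [← h2]
  refine Finset.sum_congr rfl fun x _ => ?_
  rw [← h x]
  congr

theorem cs_1 (L : List (ℕ × ℕ)) : cs (cc L.length) (gg L) (.inl (.inr ())) = 129 := by
  classical
  have h : ∀ x, (if cc L.length x = .inl (.inr ()) then gg L x else 0) =
      match x with
      | .inl (.inr i) => i.val + 19
      | _ => 0 := by
    rintro ((i | i) | ⟨i, b⟩)
    · exact if_neg (by simp)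
    · exact if_pos rfl
    · exact if_neg (by simp)
  unfold cs
  have h2 : ∑ x : (Fin 18 ⊕ Fin 6) ⊕ (Fin L.length × Bool), (match x with
      | .inl (.inr i) => i.val + 19
      | _ => 0) = 129 := by
    rw [Fintype.sum_sum_type, Fintype.sum_sum_type]
    simp only [Finset.sum_const_zero, add_zero, zero_add]
    rfl
  rw [← h2]
  refine Finset.sum_congr rfl fun x _ => ?_
  rw [← h x]
  congr

theorem cs_2 (L : List (ℕ × ℕ)) (i : Fin L.length) :
    cs (cc L.length) (gg L) (.inr i) = (L.get i).1 + (L.get i).2 := by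
  classical
  unfold cs
  rw [Fintype.sum_sum_type]
  refine (congrArg₂ (· + ·) (Finset.sum_eq_zero fun l _ => if_neg (by simp))
    ?_).trans (zero_add _)
  rw [Fintype.sum_prod_type, Finset.sum_eq_single i]
  · rw [Fintype.sum_bool]
    refine (congrArg₂ (· + ·) (if_pos rfl) (if_pos rfl)).trans ?_
    show (L.get i).2 + (L.get i).1 = _
    rw [add_comm]
  · intro j _ hj
    refine Finset.sum_eq_zero fun b _ => if_neg fun h => hj ?_
    exact Sum.inr_injective h
  · intro h
    exact absurd (Finset.mem_univ _) h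

theorem good_of_chk (t : ℕ) (ht : t ≤ 47) (L : List (ℕ × ℕ)) (h : chk t L = true) :
    ∃ g, Good (cc t) g := by
  classical
  unfold chk at h
  simp only [Bool.and_eq_true, List.all_eq_true, decide_eq_true_eq] at h
  obtain ⟨⟨⟨hlen, hb⟩, hnd⟩, hnds⟩ := h
  subst hlen
  have hB : ∀ i : Fin L.length, 25 ≤ (L.get i).1 ∧ (L.get i).1 ≤ 24 + 2 * L.length ∧
      25 ≤ (L.get i).2 ∧ (L.get i).2 ≤ 24 + 2 * L.length ∧
      24 + 2 * L.length < (L.get i).1 + (L.get i).2 ∧ (L.get i).1 + (L.get i).2 ≠ 129 ∧
      (L.get i).1 + (L.get i).2 ≠ 171 := by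
    intro i
    have := hb _ (List.get_mem L i)
    tauto
  rw [List.nodup_append] at hnd
  obtain ⟨hn1, hn2, hn3⟩ := hnd
  have h1 : ∀ i j : Fin L.length, (L.get i).1 = (L.get j).1 → i = j := by
    intro i j hij
    have := List.nodup_iff_injective_get.1 hn1
    have h' := @this ⟨i, by simp⟩ ⟨j, by simp⟩ (by simpa using hij)
    have h'' := Fin.mk.inj_iff.1 h'
    exact Fin.ext h''
  have h2 : ∀ i j : Fin L.length, (L.get i).2 = (L.get j).2 → i = j := by
    intro i j hij
    have := List.nodup_iff_injective_get.1 hn2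
    have h' := @this ⟨i, by simp⟩ ⟨j, by simp⟩ (by simpa using hij)
    have h'' := Fin.mk.inj_iff.1 h'
    exact Fin.ext h''
  have h3 : ∀ i j : Fin L.length, (L.get i).1 ≠ (L.get j).2 := by
    intro i j
    exact hn3 _ (List.mem_map.2 ⟨_, List.get_mem L i, rfl⟩) _
      (List.mem_map.2 ⟨_, List.get_mem L j, rfl⟩)
  have h4 : ∀ i j : Fin L.length, (L.get i).1 + (L.get i).2 = (L.get j).1 + (L.get j).2 →
      i = j := by
    intro i j hij
    have := List.nodup_iff_injective_get.1 hnds
    have h' := @this ⟨i, by simp⟩ ⟨j, by simp⟩ (by simpa using hij)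
    have h'' := Fin.mk.inj_iff.1 h'
    exact Fin.ext h''
  have hcard : Fintype.card ((Fin 18 ⊕ Fin 6) ⊕ (Fin L.length × Bool)) = 24 + 2 * L.length := by
    simp [mul_comm]
  have hinj : Function.Injective (gg L) := by
    rintro ((i | i) | ⟨i, _ | _⟩) ((j | j) | ⟨j, _ | _⟩) hij <;>
      first
        | (have hi := hB i; have hj := hB j; simp only [gg] at hij; first
          | (rw [h1 i j hij]) | (rw [h2 i j hij]) | exact absurd hij (h3 i j)
          | exact absurd hij.symm (h3 j i))
        | (have hi := hB i; simp only [gg] at hij; omega)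
        | (have hj := hB j; simp only [gg] at hij; omega)
        | (simp only [gg] at hij; first | omega | (congr 2; omega))
  have hmaps : ∀ x, gg L x ∈ Finset.Icc 1 (24 + 2 * L.length) := by
    rintro ((i | i) | ⟨i, _ | _⟩) <;> rw [Finset.mem_Icc]
    · simp only [gg]; omega
    · simp only [gg]; omega
    · have := hB i; simp only [gg]; omega
    · have := hB i; simp only [gg]; omega
  have himg : Finset.univ.image (gg L) = Finset.Icc 1 (24 + 2 * L.length) := by
    apply Finset.eq_of_subset_of_card_le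
    · intro x hx
      rw [Finset.mem_image] at hx
      obtain ⟨y, -, rfl⟩ := hx
      exact hmaps y
    · rw [Finset.card_image_of_injective _ hinj, Finset.card_univ, hcard, Nat.card_Icc]
      omega
  refine ⟨gg L, ⟨?_, hinj.injOn, ?_⟩, ?_⟩
  · intro x _
    rw [hcard]
    exact Finset.mem_Icc.1 (hmaps x)
  · intro x hx
    rw [hcard] at hx
    have : x ∈ Finset.univ.image (gg L) := by
      rw [himg, Finset.mem_Icc]
      exact hx
    rw [Finset.mem_image] at this
    obtain ⟨y, -, hy⟩ := this
    exact ⟨y, trivial, hy⟩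
  · have hle : ∀ x, gg L x ≤ 24 + 2 * L.length := fun x => (Finset.mem_Icc.1 (hmaps x)).2
    have key : Function.Injective (Sum.elim (gg L) (cs (cc L.length) (gg L))) := by
      have hgt : ∀ k, 24 + 2 * L.length < cs (cc L.length) (gg L) k := by
        rintro ((_ | _) | i)
        · rw [cs_0]; omega
        · rw [cs_1]; omega
        · rw [cs_2]; exact (hB i).2.2.2.2.1
      have hcs : Function.Injective (cs (cc L.length) (gg L)) := by
        rintro ((_ | _) | i) ((_ | _) | j) hij
        · rfl
        · rw [cs_0, cs_1] at hij; omega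
        · rw [cs_0, cs_2] at hij; exact absurd hij.symm (hB j).2.2.2.2.2.2
        · rw [cs_0, cs_1] at hij; omega
        · rfl
        · rw [cs_1, cs_2] at hij; exact absurd hij.symm (hB j).2.2.2.2.2.1
        · rw [cs_0, cs_2] at hij; exact absurd hij (hB i).2.2.2.2.2.2
        · rw [cs_1, cs_2] at hij; exact absurd hij (hB i).2.2.2.2.2.1
        · rw [cs_2, cs_2] at hij; rw [h4 i j hij]
      rintro (x | x) (y | y) hxy
      · rw [hinj hxy]
      · have hxy' : gg L x = cs (cc L.length) (gg L) y := hxy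
        have h5 := hle x
        have h6 := hgt y
        omega
      · have hxy' : cs (cc L.length) (gg L) x = gg L y := hxy
        have h5 := hle y
        have h6 := hgt x
        omega
      · rw [hcs hxy]
    exact key

/-- the star `K_{1,s}` -/
abbrev K (s : ℕ) : SimpleGraph (Fin s ⊕ Unit) := completeBipartiteGraph (Fin s) Unit

theorem union_antimagic (t : ℕ) (ht : t ≤ 47) : Antimagic ((K 18 ⊕g K 6) ⊕g tP3 t) := by
  rw [(((SF.star 18).sum (SF.star 6)).sum (SF.paths t)).antimagic_iff]
  have h1 := List.all_eq_true.1 chk_tabs t (List.mem_range.2 (by omega))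
  exact good_of_chk t ht _ h1

theorem union_not (t : ℕ) (ht : 50 ≤ t) : ¬ Antimagic ((K 18 ⊕g K 6) ⊕g tP3 t) := by
  rw [(((SF.star 18).sum (SF.star 6)).sum (SF.paths t)).antimagic_iff]
  rintro ⟨g, hg⟩
  have := Good.pairs (L := Fin 18 ⊕ Fin 6) (C := Unit ⊕ Unit)
    (c := Sum.map (fun _ => ()) (fun _ => ())) hg
  simp at this
  omega

theorem star18_not (t : ℕ) (ht : 38 ≤ t) : ¬ Antimagic (K 18 ⊕g tP3 t) := by
  rw [((SF.star 18).sum (SF.paths t)).antimagic_iff]
  rintro ⟨g, hg⟩
  have := Good.pairs (L := Fin 18) (C := Unit) (c := fun _ => ()) hg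
  simp at this
  omega

theorem star6_not : ¬ Antimagic (K 6 ⊕g tP3 10) := by
  rw [((SF.star 6).sum (SF.paths 10)).antimagic_iff]
  rintro ⟨g, hg⟩
  have := Good.total hg (by
    rintro (_ | i)
    · exact ⟨.inl 0, rfl⟩
    · exact ⟨.inr (i, false), rfl⟩)
  simp at this

end Pool.Agent.Q259.AF
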