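import Pool.Agent.Q259.AF.Def

set_option autoImplicit false

namespace Pool.Agent.Q259.AF

open Finset
open scoped SimpleGraph

/-- adjacency of the star forest with leaf set `L`, centre set `C` -/
def SAdj {L C : Type} (c : L → C) : L ⊕ C → L ⊕ C → Prop
  | .inl l, .inr k => c l = k
  | .inr k, .inl l => c l = k
  | _, _ => False

/-- a star forest structure on `G` -/
structure SF {V : Type} (G : SimpleGraph V) (L C : Type) where
  e : L ⊕ C ≃ V
  c : L → C
  adj : ∀ x y, G.Adj (e x) (e y) ↔ SAdj c x y

namespace SF

variable {V : Type} {G : SimpleGraph V} {L C : Type}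

/-- the edge of a leaf -/
def edge (S : SF G L C) (l : L) : Sym2 V := s(S.e (.inl l), S.e (.inr (S.c l)))

theorem edge_inj (S : SF G L C) : Function.Injective S.edge := by
  intro l l' h
  unfold edge at h
  rw [Sym2.eq_iff] at h
  rcases h with ⟨h1, -⟩ | ⟨h1, -⟩
  · have := S.e.injective h1
    simpa using this
  · have := S.e.injective h1
    simp at this

theorem range_edge (S : SF G L C) : Set.range S.edge = G.edgeSet := by
  ext z
  induction z using Sym2.ind with
  | _ u v =>
    rw [SimpleGraph.mem_edgeSet]
    constructor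
    · rintro ⟨l, hl⟩
      unfold edge at hl
      have h1 : G.Adj (S.e (.inl l)) (S.e (.inr (S.c l))) := (S.adj _ _).2 rfl
      rw [← SimpleGraph.mem_edgeSet, hl, SimpleGraph.mem_edgeSet] at h1
      exact h1
    · intro h
      obtain ⟨x, rfl⟩ := S.e.surjective u
      obtain ⟨y, rfl⟩ := S.e.surjective v
      rw [S.adj] at h
      rcases x with l | k <;> rcases y with l' | k'
      · exact h.elim
      · exact ⟨l, by unfold edge; rw [show S.c l = k' from h]⟩
      · exact ⟨l', by unfold edge; rw [show S.c l' = k from h, Sym2.eq_swap]⟩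
      · exact h.elim

theorem ncard_edgeSet [Fintype L] (S : SF G L C) : G.edgeSet.ncard = Fintype.card L := by
  rw [← S.range_edge, ← Set.image_univ, Set.ncard_image_of_injective _ S.edge_inj,
    Set.ncard_univ, Nat.card_eq_fintype_card]

open Classical in
theorem phi_leaf [Fintype V] [Fintype L] [Fintype C] (S : SF G L C) (f : Sym2 V → ℕ) (l : L) :
    phi G f (S.e (.inl l)) = f (S.edge l) := by
  unfold phi
  rw [← S.e.sum_comp, Fintype.sum_sum_type]
  have h1 : ∀ l' : L, (if G.Adj (S.e (.inl l)) (S.e (.inl l')) then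
      f s(S.e (.inl l), S.e (.inl l')) else 0) = 0 := by
    intro l'
    rw [if_neg]
    rw [S.adj]
    exact id
  have h2 : ∀ k : C, (if G.Adj (S.e (.inl l)) (S.e (.inr k)) then
      f s(S.e (.inl l), S.e (.inr k)) else 0) = if k = S.c l then f (S.edge l) else 0 := by
    intro k
    by_cases h : k = S.c l
    · subst h
      rw [if_pos rfl, if_pos ((S.adj (.inl l) (.inr (S.c l))).2 rfl)]
      rfl
    · rw [if_neg h, if_neg]
      rw [S.adj]
      exact fun h' => h h'.symm
  rw [Finset.sum_congr rfl fun l' _ => h1 l', Finset.sum_congr rfl fun k _ => h2 k]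
  simp

open Classical in
theorem phi_cen [Fintype V] [Fintype L] [Fintype C] (S : SF G L C) (f : Sym2 V → ℕ) (k : C) :
    phi G f (S.e (.inr k)) = ∑ l : L, if S.c l = k then f (S.edge l) else 0 := by
  unfold phi
  rw [← S.e.sum_comp, Fintype.sum_sum_type]
  have h1 : ∀ k' : C, (if G.Adj (S.e (.inr k)) (S.e (.inr k')) then
      f s(S.e (.inr k), S.e (.inr k')) else 0) = 0 := by
    intro l'
    rw [if_neg]
    rw [S.adj]
    exact id
  have h2 : ∀ l : L, (if G.Adj (S.e (.inr k)) (S.e (.inl l)) then
      f s(S.e (.inr k), S.e (.inl l)) else 0) = if S.c l = k then f (S.edge l) else 0 := by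
    intro l
    by_cases h : S.c l = k
    · subst h
      rw [if_pos rfl, if_pos ((S.adj (.inr (S.c l)) (.inl l)).2 rfl), Sym2.eq_swap]
      rfl
    · rw [if_neg h, if_neg]
      rw [S.adj]
      exact h
  rw [Finset.sum_congr rfl fun k' _ => h1 k', Finset.sum_congr rfl fun k _ => h2 k]
  simp

end SF

open Classical in
/-- a good labelling of the leaves -/
def Good {L C : Type} [Fintype L] (c : L → C) (g : L → ℕ) : Prop :=
  Set.BijOn g Set.univ (Set.Icc 1 (Fintype.card L)) ∧
    Function.Injective (Sum.elim g fun k => ∑ l : L, if c l = k then g l else 0)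

theorem SF.antimagic_iff {V : Type} {G : SimpleGraph V} {L C : Type} [Fintype V] [Fintype L]
    [Fintype C] (S : SF G L C) : Antimagic G ↔ ∃ g : L → ℕ, Good S.c g := by
  classical
  constructor
  · rintro ⟨f, hf, hi⟩
    refine ⟨fun l => f (S.edge l), ?_, ?_⟩
    · unfold IsLabelling at hf
      rw [S.ncard_edgeSet, ← S.range_edge, ← Set.image_univ] at hf
      exact hf.comp (S.edge_inj.injOn.bijOn_image)
    · have h1 : (Sum.elim (fun l => f (S.edge l))
          fun k => ∑ l : L, if S.c l = k then f (S.edge l) else 0) = phi G f ∘ S.e := by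
        funext x
        rcases x with l | k
        · rw [Function.comp_apply, S.phi_leaf]
          rfl
        · rw [Function.comp_apply, S.phi_cen]
          simp only [Sum.elim_inr]
      have h2 : Function.Injective (Sum.elim (fun l => f (S.edge l))
          fun k => ∑ l : L, if S.c l = k then f (S.edge l) else 0) := by
        rw [h1]
        exact hi.comp S.e.injective
      convert h2
  · rintro ⟨g, hg, hi⟩
    have hext : ∀ l, Function.extend S.edge g (fun _ => 0) (S.edge l) = g l := fun l =>
      S.edge_inj.extend_apply _ _ _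
    refine ⟨Function.extend S.edge g fun _ => 0, ?_, ?_⟩
    · unfold IsLabelling
      rw [S.ncard_edgeSet, ← S.range_edge, ← Set.image_univ]
      have h2 : Set.BijOn (Function.extend S.edge g (fun _ => 0) ∘ S.edge) Set.univ
          (Set.Icc 1 (Fintype.card L)) := by
        have : (Function.extend S.edge g (fun _ => 0) ∘ S.edge) = g := funext hext
        rw [this]
        exact hg
      have h3 : Set.BijOn S.edge Set.univ (S.edge '' Set.univ) := S.edge_inj.injOn.bijOn_image
      refine ⟨?_, ?_, ?_⟩
      · rintro _ ⟨l, -, rfl⟩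
        rw [hext]
        exact hg.mapsTo (Set.mem_univ l)
      · rintro _ ⟨l, -, rfl⟩ _ ⟨l', -, rfl⟩ h
        rw [hext, hext] at h
        rw [hg.injOn (Set.mem_univ l) (Set.mem_univ l') h]
      · intro n hn
        obtain ⟨l, -, hl⟩ := hg.surjOn hn
        exact ⟨S.edge l, ⟨l, trivial, rfl⟩, by rw [hext, hl]⟩
    · have h1 : (Sum.elim g fun k => ∑ l : L, if S.c l = k then g l else 0) =
          phi G (Function.extend S.edge g fun _ => 0) ∘ S.e := by
        funext x
        rcases x with l | k
        · rw [Function.comp_apply, S.phi_leaf, hext]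
          rfl
        · rw [Function.comp_apply, S.phi_cen]
          simp only [Sum.elim_inr]
          refine Finset.sum_congr rfl fun l _ => ?_
          rw [hext]
      have h4 : Function.Injective (phi G (Function.extend S.edge g fun _ => 0) ∘ S.e) := by
        rw [← h1]
        convert hi
      intro u v huv
      obtain ⟨x, rfl⟩ := S.e.surjective u
      obtain ⟨y, rfl⟩ := S.e.surjective v
      rw [h4 huv]

/-- disjoint unions of star forests -/
def SF.sum {V V' : Type} {G : SimpleGraph V} {G' : SimpleGraph V'} {L C L' C' : Type}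
    (S : SF G L C) (S' : SF G' L' C') : SF (G ⊕g G') (L ⊕ L') (C ⊕ C') where
  e := (Equiv.sumSumSumComm L L' C C').trans (Equiv.sumCongr S.e S'.e)
  c := Sum.map S.c S'.c
  adj := by
    rintro ((l | l) | (k | k)) ((l' | l') | (k' | k')) <;>
      simp [Equiv.sumSumSumComm, SAdj, S.adj, S'.adj]

/-- the star `K_{1,s}` -/
def SF.star (s : ℕ) : SF (completeBipartiteGraph (Fin s) Unit) (Fin s) Unit where
  e := Equiv.refl _
  c := fun _ => ()
  adj := by
    rintro (l | k) (l' | k') <;> simp [SAdj]

/-- the vertices of `t` paths with three vertices -/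
def pfun (t : ℕ) : (Fin t × Bool) ⊕ Fin t → Fin t × Fin 3
  | .inl (i, false) => (i, 0)
  | .inl (i, true) => (i, 2)
  | .inr i => (i, 1)

theorem pfun_bij (t : ℕ) : Function.Bijective (pfun t) := by
  constructor
  · rintro (⟨i, _ | _⟩ | i) (⟨j, _ | _⟩ | j) h <;> simp_all [pfun]
  · rintro ⟨i, a⟩
    fin_cases a
    · exact ⟨.inl (i, false), rfl⟩
    · exact ⟨.inr i, rfl⟩
    · exact ⟨.inl (i, true), rfl⟩

/-- `t` paths with three vertices -/
noncomputable def SF.paths (t : ℕ) : SF (tP3 t) (Fin t × Bool) (Fin t) where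
  e := Equiv.ofBijective (pfun t) (pfun_bij t)
  c := Prod.fst
  adj := by
    intro x y
    rw [Equiv.ofBijective_apply, Equiv.ofBijective_apply]
    rcases x with (⟨i, _ | _⟩ | i) <;> rcases y with (⟨j, _ | _⟩ | j) <;>
      simp only [pfun, SAdj, tP3, SimpleGraph.pathGraph_adj] <;> simp [eq_comm]

end Pool.Agent.Q259.AF
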