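import Pool.Agent.Q259.AF.Bound

set_option autoImplicit false

namespace Pool.Agent.Q259.AF

/-- the pairs of labels of the paths, for `t = 0, ..., 47` -/
def tabs : List (List (ℕ × ℕ)) := [
  [],
  [(25, 26)],
  [(25, 27), (26, 28)],
  [(25, 28), (26, 29), (27, 30)],
  [(25, 29), (26, 30), (27, 31), (28, 32)],
  [(25, 30), (26, 31), (27, 32), (28, 33), (29, 34)],
  [(25, 31), (26, 32), (27, 33), (28, 34), (29, 35), (30, 36)],
  [(25, 32), (26, 33), (27, 34), (28, 35), (29, 36), (30, 37), (31, 38)],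
  [(25, 33), (26, 34), (27, 35), (28, 36), (29, 37), (30, 38), (31, 39), (32, 40)],
  [(25, 34), (26, 35), (27, 36), (28, 37), (29, 38), (30, 39), (31, 40), (32, 41), (33, 42)],
  [(25, 35), (26, 36), (27, 37), (28, 38), (29, 39), (30, 40), (31, 41), (32, 42), (33, 43),
   (34, 44)],
  [(25, 36), (26, 37), (27, 38), (28, 39), (29, 40), (30, 41), (31, 42), (32, 43), (33, 44),
   (34, 45), (35, 46)],
  [(25, 37), (26, 38), (27, 39), (28, 40), (29, 41), (30, 42), (31, 43), (32, 44), (33, 45),
   (34, 46), (35, 47), (36, 48)],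
  [(25, 38), (26, 39), (27, 40), (28, 41), (29, 42), (30, 43), (31, 44), (32, 45), (33, 46),
   (34, 47), (35, 48), (36, 49), (37, 50)],
  [(25, 39), (26, 40), (27, 41), (28, 42), (29, 43), (30, 44), (31, 45), (32, 46), (33, 47),
   (34, 48), (35, 49), (36, 50), (37, 51), (38, 52)],
  [(25, 40), (26, 41), (27, 42), (28, 43), (29, 44), (30, 45), (31, 46), (32, 47), (33, 48),
   (34, 49), (35, 50), (36, 51), (37, 52), (38, 53), (39, 54)],
  [(25, 41), (26, 42), (27, 43), (28, 44), (29, 45), (30, 46), (31, 47), (32, 48), (33, 49),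
   (34, 50), (35, 51), (36, 52), (37, 53), (38, 54), (39, 55), (40, 56)],
  [(25, 42), (26, 43), (27, 44), (28, 45), (29, 46), (30, 47), (31, 48), (32, 49), (33, 50),
   (34, 51), (35, 52), (36, 53), (37, 54), (38, 55), (39, 56), (40, 57), (41, 58)],
  [(25, 43), (26, 44), (27, 45), (28, 46), (29, 47), (30, 48), (31, 49), (32, 50), (33, 51),
   (34, 52), (35, 53), (36, 54), (37, 55), (38, 56), (39, 57), (40, 58), (41, 59), (42, 60)],
  [(25, 44), (26, 45), (27, 46), (28, 47), (29, 48), (30, 49), (31, 50), (32, 51), (33, 52),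
   (34, 53), (35, 54), (36, 55), (37, 56), (38, 57), (39, 58), (40, 59), (41, 60), (42, 61),
   (43, 62)],
  [(25, 45), (26, 46), (27, 47), (28, 48), (29, 49), (30, 50), (31, 51), (32, 52), (33, 53),
   (34, 54), (35, 55), (36, 56), (37, 57), (38, 58), (39, 59), (40, 60), (41, 61), (42, 62),
   (43, 63), (44, 64)],
  [(25, 46), (26, 47), (27, 48), (28, 49), (29, 50), (30, 51), (31, 52), (32, 53), (33, 54),
   (34, 55), (35, 56), (36, 57), (37, 58), (38, 59), (39, 60), (40, 61), (41, 62), (42, 63),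
   (43, 64), (44, 65), (45, 66)],
  [(25, 47), (26, 48), (27, 49), (28, 50), (29, 51), (30, 52), (31, 53), (32, 54), (33, 55),
   (34, 56), (35, 57), (36, 58), (37, 59), (38, 60), (39, 61), (40, 62), (41, 63), (42, 64),
   (43, 65), (44, 66), (45, 67), (46, 68)],
  [(25, 48), (26, 49), (27, 50), (28, 51), (29, 52), (30, 53), (31, 54), (32, 55), (33, 56),
   (34, 57), (35, 58), (36, 59), (37, 60), (38, 61), (39, 62), (40, 63), (41, 64), (42, 65),
   (43, 66), (44, 67), (45, 68), (46, 69), (47, 70)],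
  [(25, 49), (26, 50), (27, 51), (28, 52), (29, 53), (30, 54), (31, 55), (32, 56), (33, 57),
   (34, 58), (35, 59), (36, 60), (37, 61), (38, 62), (39, 63), (40, 64), (41, 65), (42, 66),
   (43, 67), (44, 68), (45, 69), (46, 70), (47, 71), (48, 72)],
  [(25, 50), (26, 51), (27, 52), (28, 53), (29, 54), (30, 55), (31, 56), (32, 57), (33, 58),
   (34, 59), (35, 60), (36, 61), (37, 62), (38, 63), (39, 64), (40, 65), (41, 66), (42, 67),
   (43, 68), (44, 69), (45, 70), (46, 71), (47, 72), (48, 73), (49, 74)],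
  [(25, 52), (26, 53), (27, 51), (28, 54), (29, 55), (30, 56), (31, 57), (32, 58), (33, 59),
   (34, 60), (35, 61), (36, 62), (37, 63), (38, 64), (39, 65), (40, 66), (41, 67), (42, 68),
   (43, 69), (44, 70), (45, 71), (46, 72), (47, 73), (48, 74), (49, 75), (50, 76)],
  [(25, 54), (26, 74), (27, 53), (28, 55), (29, 52), (30, 68), (31, 58), (32, 65), (33, 63),
   (34, 67), (35, 64), (36, 66), (37, 56), (38, 73), (39, 69), (40, 76), (41, 72), (42, 77),
   (43, 71), (44, 78), (45, 70), (46, 75), (47, 62), (48, 59), (49, 57), (50, 60), (51, 61)],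
  [(25, 56), (26, 57), (27, 55), (28, 58), (29, 59), (30, 54), (31, 60), (32, 53), (33, 61),
   (34, 62), (35, 63), (36, 64), (37, 65), (38, 66), (39, 67), (40, 68), (41, 69), (42, 70),
   (43, 71), (44, 72), (45, 73), (46, 74), (47, 75), (48, 76), (49, 77), (50, 78), (51, 79),
   (52, 80)],
  [(25, 58), (26, 59), (27, 57), (28, 60), (29, 61), (30, 56), (31, 62), (32, 55), (33, 63),
   (34, 64), (35, 54), (36, 65), (37, 66), (38, 67), (39, 68), (40, 69), (41, 70), (42, 71),
   (43, 72), (44, 73), (45, 74), (46, 75), (47, 76), (48, 77), (49, 78), (50, 80), (51, 81),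
   (52, 79), (53, 82)],
  [(25, 60), (26, 61), (27, 59), (28, 62), (29, 63), (30, 58), (31, 64), (32, 57), (33, 65),
   (34, 66), (35, 56), (36, 67), (37, 68), (38, 55), (39, 69), (40, 70), (41, 71), (42, 72),
   (43, 73), (44, 74), (45, 75), (46, 76), (47, 77), (48, 78), (49, 79), (50, 80), (51, 81),
   (52, 82), (53, 83), (54, 84)],
  [(25, 62), (26, 63), (27, 61), (28, 64), (29, 65), (30, 60), (31, 66), (32, 59), (33, 67),
   (34, 68), (35, 58), (36, 69), (37, 70), (38, 57), (39, 71), (40, 56), (41, 72), (42, 73),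
   (43, 74), (44, 75), (45, 76), (46, 77), (47, 78), (48, 79), (49, 81), (50, 82), (51, 80),
   (52, 83), (53, 84), (54, 85), (55, 86)],
  [(25, 64), (26, 65), (27, 63), (28, 66), (29, 67), (30, 62), (31, 68), (32, 61), (33, 69),
   (34, 70), (35, 60), (36, 71), (37, 72), (38, 59), (39, 73), (40, 58), (41, 74), (42, 75),
   (43, 57), (44, 76), (45, 77), (46, 78), (47, 79), (48, 80), (49, 81), (50, 82), (51, 83),
   (52, 84), (53, 85), (54, 86), (55, 87), (56, 88)],
  [(25, 66), (26, 67), (27, 65), (28, 68), (29, 69), (30, 64), (31, 70), (32, 63), (33, 71),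
   (34, 72), (35, 62), (36, 73), (37, 74), (38, 61), (39, 75), (40, 60), (41, 76), (42, 77),
   (43, 59), (44, 78), (45, 58), (46, 79), (47, 80), (48, 82), (49, 83), (50, 81), (51, 84),
   (52, 85), (53, 86), (54, 87), (55, 88), (56, 89), (57, 90)],
  [(25, 68), (26, 69), (27, 67), (28, 70), (29, 71), (30, 66), (31, 72), (32, 65), (33, 73),
   (34, 74), (35, 64), (36, 75), (37, 76), (38, 63), (39, 77), (40, 62), (41, 78), (42, 79),
   (43, 61), (44, 80), (45, 60), (46, 81), (47, 83), (48, 59), (49, 82), (50, 84), (51, 85),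
   (52, 86), (53, 87), (54, 88), (55, 89), (56, 90), (57, 91), (58, 92)],
  [(25, 70), (26, 71), (27, 69), (28, 72), (29, 73), (30, 68), (31, 74), (32, 67), (33, 75),
   (34, 76), (35, 66), (36, 77), (37, 78), (38, 65), (39, 79), (40, 64), (41, 80), (42, 81),
   (43, 63), (44, 82), (45, 62), (46, 84), (47, 85), (48, 61), (49, 86), (50, 83), (51, 60),
   (52, 87), (53, 88), (54, 89), (55, 90), (56, 91), (57, 92), (58, 93), (59, 94)],
  [(25, 72), (26, 73), (27, 71), (28, 74), (29, 75), (30, 70), (31, 76), (32, 69), (33, 77),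
   (34, 78), (35, 68), (36, 79), (37, 80), (38, 67), (39, 81), (40, 66), (41, 82), (42, 83),
   (43, 65), (44, 84), (45, 64), (46, 85), (47, 86), (48, 63), (49, 87), (50, 88), (51, 62),
   (52, 89), (53, 61), (54, 90), (55, 91), (56, 92), (57, 93), (58, 94), (59, 95), (60, 96)],
  [(25, 74), (26, 75), (27, 73), (28, 76), (29, 77), (30, 72), (31, 78), (32, 71), (33, 79),
   (34, 80), (35, 70), (36, 81), (37, 82), (38, 69), (39, 83), (40, 68), (41, 84), (42, 85),
   (43, 67), (44, 86), (45, 66), (46, 87), (47, 88), (48, 65), (49, 89), (50, 90), (51, 64),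
   (52, 91), (53, 63), (54, 92), (55, 93), (56, 62), (57, 94), (58, 95), (59, 96), (60, 97),
   (61, 98)],
  [(25, 76), (26, 77), (27, 75), (28, 78), (29, 79), (30, 74), (31, 80), (32, 73), (33, 81),
   (34, 82), (35, 72), (36, 83), (37, 84), (38, 71), (39, 85), (40, 70), (41, 86), (42, 88),
   (43, 69), (44, 87), (45, 68), (46, 89), (47, 90), (48, 67), (49, 91), (50, 92), (51, 66),
   (52, 93), (53, 65), (54, 94), (55, 95), (56, 64), (57, 96), (58, 97), (59, 63), (60, 98),
   (61, 99), (62, 100)],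
  [(25, 78), (26, 79), (27, 77), (28, 80), (29, 81), (30, 76), (31, 82), (32, 75), (33, 83),
   (34, 84), (35, 74), (36, 85), (37, 86), (38, 73), (39, 87), (40, 72), (41, 89), (42, 90),
   (43, 71), (44, 91), (45, 70), (46, 88), (47, 92), (48, 69), (49, 93), (50, 94), (51, 68),
   (52, 95), (53, 67), (54, 96), (55, 97), (56, 66), (57, 98), (58, 99), (59, 65), (60, 100),
   (61, 64), (62, 101), (63, 102)],
  [(25, 80), (26, 81), (27, 79), (28, 82), (29, 83), (30, 78), (31, 84), (32, 77), (33, 85),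
   (34, 86), (35, 76), (36, 87), (37, 88), (38, 75), (39, 89), (40, 74), (41, 90), (42, 91),
   (43, 73), (44, 92), (45, 72), (46, 93), (47, 94), (48, 71), (49, 95), (50, 96), (51, 70),
   (52, 97), (53, 69), (54, 98), (55, 99), (56, 68), (57, 100), (58, 101), (59, 67), (60, 102),
   (61, 103), (62, 65), (63, 104), (64, 66)],
  [(25, 82), (26, 101), (27, 84), (28, 81), (29, 85), (30, 88), (31, 89), (32, 83), (33, 80),
   (34, 92), (35, 93), (36, 94), (37, 87), (38, 96), (39, 98), (40, 95), (41, 97), (42, 66),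
   (43, 67), (44, 68), (45, 99), (46, 70), (47, 75), (48, 69), (49, 72), (50, 73), (51, 74),
   (52, 100), (53, 79), (54, 77), (55, 78), (56, 102), (57, 103), (58, 105), (59, 106),
   (60, 104), (61, 90), (62, 86), (63, 76), (64, 91), (65, 71)],
  [(25, 86), (26, 96), (27, 89), (28, 107), (29, 84), (30, 79), (31, 94), (32, 106), (33, 108),
   (34, 105), (35, 75), (36, 87), (37, 97), (38, 77), (39, 80), (40, 78), (41, 71), (42, 104),
   (43, 74), (44, 93), (45, 69), (46, 90), (47, 85), (48, 76), (49, 101), (50, 81), (51, 82),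
   (52, 99), (53, 67), (54, 72), (55, 73), (56, 102), (57, 70), (58, 103), (59, 98), (60, 92),
   (61, 95), (62, 68), (63, 100), (64, 91), (65, 83), (66, 88)],
  [(25, 86), (26, 87), (27, 85), (28, 88), (29, 89), (30, 84), (31, 90), (32, 83), (33, 91),
   (34, 92), (35, 82), (36, 94), (37, 95), (38, 81), (39, 96), (40, 80), (41, 93), (42, 97),
   (43, 79), (44, 98), (45, 78), (46, 99), (47, 100), (48, 77), (49, 101), (50, 102), (51, 110),
   (52, 103), (53, 109), (54, 104), (55, 105), (56, 108), (57, 70), (58, 107), (59, 69),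
   (60, 73), (61, 106), (62, 75), (63, 68), (64, 76), (65, 71), (66, 72), (67, 74)],
  [(25, 88), (26, 108), (27, 89), (28, 91), (29, 92), (30, 94), (31, 95), (32, 90), (33, 99),
   (34, 93), (35, 98), (36, 100), (37, 101), (38, 87), (39, 102), (40, 106), (41, 107),
   (42, 110), (43, 74), (44, 71), (45, 69), (46, 104), (47, 73), (48, 70), (49, 105), (50, 80),
   (51, 72), (52, 76), (53, 78), (54, 81), (55, 82), (56, 83), (57, 111), (58, 84), (59, 97),
   (60, 103), (61, 112), (62, 85), (63, 86), (64, 96), (65, 109), (66, 79), (67, 77), (68, 75)],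
  [(25, 110), (26, 92), (27, 114), (28, 88), (29, 113), (30, 87), (31, 89), (32, 100), (33, 112),
   (34, 91), (35, 102), (36, 111), (37, 84), (38, 106), (39, 80), (40, 75), (41, 93), (42, 82),
   (43, 96), (44, 105), (45, 103), (46, 97), (47, 108), (48, 109), (49, 81), (50, 78), (51, 101),
   (52, 71), (53, 74), (54, 72), (55, 95), (56, 77), (57, 83), (58, 73), (59, 104), (60, 76),
   (61, 107), (62, 94), (63, 90), (64, 98), (65, 86), (66, 99), (67, 79), (68, 70), (69, 85)],
  [(25, 92), (26, 94), (27, 116), (28, 114), (29, 89), (30, 105), (31, 115), (32, 100),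
   (33, 112), (34, 91), (35, 99), (36, 85), (37, 111), (38, 109), (39, 83), (40, 87), (41, 78),
   (42, 88), (43, 81), (44, 95), (45, 110), (46, 77), (47, 104), (48, 106), (49, 107), (50, 86),
   (51, 80), (52, 97), (53, 73), (54, 98), (55, 82), (56, 72), (57, 102), (58, 75), (59, 79),
   (60, 90), (61, 96), (62, 108), (63, 103), (64, 101), (65, 93), (66, 74), (67, 113), (68, 76),
   (69, 84), (70, 71)],
  [(25, 95), (26, 107), (27, 113), (28, 116), (29, 112), (30, 117), (31, 114), (32, 118),
   (33, 89), (34, 115), (35, 108), (36, 110), (37, 84), (38, 94), (39, 109), (40, 97), (41, 111),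
   (42, 96), (43, 88), (44, 75), (45, 79), (46, 93), (47, 81), (48, 77), (49, 85), (50, 80),
   (51, 72), (52, 74), (53, 82), (54, 73), (55, 98), (56, 99), (57, 100), (58, 78), (59, 102),
   (60, 106), (61, 104), (62, 105), (63, 101), (64, 87), (65, 103), (66, 76), (67, 91), (68, 92),
   (69, 90), (70, 86), (71, 83)]]

/-- the conditions on the pairs for `t` -/
def chk (t : ℕ) (L : List (ℕ × ℕ)) : Bool :=
  decide (L.length = t) && L.all (fun p => decide (25 ≤ p.1) && decide (p.1 ≤ 24 + 2 * t) &&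
    decide (25 ≤ p.2) && decide (p.2 ≤ 24 + 2 * t) && decide (24 + 2 * t < p.1 + p.2) &&
    decide (p.1 + p.2 ≠ 129) && decide (p.1 + p.2 ≠ 171)) &&
    decide (L.map Prod.fst ++ L.map Prod.snd).Nodup && decide (L.map fun p => p.1 + p.2).Nodup

theorem chk_tabs : (List.range 48).all (fun t => chk t (tabs.getD t [])) = true := by
  decide +kernel

end Pool.Agent.Q259.AF
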